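import Pool.Agent.Helper84.Sigma

/-!
# `Ind (X × Y) ≤ Ind X + Ind Y` for a paracompact sigma-locally compact factor

Full (positive) answer to Q1.  Notation: `T4Space` is Hausdorff and normal; `T2Space` together with
`ParacompactSpace` is Hausdorff paracompact.  `Ind`, `FiniteSumInd` and `SigmaLocallyCompact` are
defined in `Pool/Agent/Helper84/IndDefs.lean`.
-/

universe u v

open Pool.Agent.Helper84.IndDim

/-- If `X × Y` is normal, `X` and `Y` satisfy the finite sum theorem for `Ind`, and `X` is
paracompact and sigma-locally compact, then `Ind (X × Y) ≤ Ind X + Ind Y`. -/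
theorem Pool.Agent.Results.MP_bd525c_gt.SigmaLocallyCompactFactor.result
    (X : Type u) (Y : Type v) [TopologicalSpace X] [TopologicalSpace Y]
    (hne : Nonempty X ∨ Nonempty Y) (hXY : T4Space (X × Y))
    (hX : FiniteSumInd X) (hY : FiniteSumInd Y)
    (hT2 : T2Space X) (hpc : ParacompactSpace X) (hσ : SigmaLocallyCompact X) :
    Ind (X × Y) ≤ Ind X + Ind Y :=
  ind_prod_le_of_sigma hne hXY hT2 hpc hσ hX hY
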