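import Pool.Agent.Helper84.Final

/-!
# `Ind (X × Y) ≤ Ind X + Ind Y` for a strongly paracompact product

Full (positive) answer to Q2.  Notation: `T4Space` is Hausdorff and normal.  `Ind`, `FiniteSumInd`
and `StronglyParacompact` are defined in `Pool/Agent/Helper84/IndDefs.lean`.
-/

universe u v

open Pool.Agent.Helper84.IndDim

/-- If `X × Y` is normal and strongly paracompact, and `X` and `Y` satisfy the finite sum theorem
for `Ind`, then `Ind (X × Y) ≤ Ind X + Ind Y`. -/
theorem Pool.Agent.Results.MP_bd525c_gt.StronglyParacompactProduct.result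
    (X : Type u) (Y : Type v) [TopologicalSpace X] [TopologicalSpace Y]
    (hne : Nonempty X ∨ Nonempty Y) (hXY : T4Space (X × Y))
    (hX : FiniteSumInd X) (hY : FiniteSumInd Y) (hZ : StronglyParacompact (X × Y)) :
    Ind (X × Y) ≤ Ind X + Ind Y :=
  ind_prod_le_of_strong hne hXY hX hY hZ
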